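import Pool.Agent.Lib.MP_bc213e_ag.KBA.W
import Pool.Agent.Lib.MP_bc213e_ag.Hyp.ADefs

/-! Sections of finite rank over a small subfield: coordinates have fixed denominators, and their
poles are removed at a cost of lower order. -/

namespace Pool.Agent.Lib.MP_bc213e_ag.DS

open Module Filter WithZero Pool.Agent.Lib.MP_bc213e_ag.Hyp

theorem lin_bdd {F K κ : Type} [Field F] [Field K] [Algebra F K] [CharZero F]
    (B : Submodule K (κ → K)) (hF : ∀ e : K, IsAlgebraic F e → e ∈ (algebraMap F K).range)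
    (hD : ∀ D : Derivation F K K, ∀ y ∈ B, (fun i => D (y i)) ∈ B) (n : ℕ) :
    ∀ (W : Submodule F K) [FiniteDimensional F W], finrank F W = n → ∀ f : K →ₗ[F] K,
      ∀ y ∈ B, (∀ i, y i ∈ W) → (fun i => f (y i)) ∈ B := by
  induction n using Nat.strong_induction_on with
  | _ n ih =>
  have key : ∀ (W : Submodule F K) [FiniteDimensional F W], finrank F W = n → (1 : K) ∈ W →
      ∀ f : K →ₗ[F] K, ∀ y ∈ B, (∀ i, y i ∈ W) → (fun i => f (y i)) ∈ B := by
    intro W _ hn h1 f y hy hyW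
    by_cases hW : ∀ e ∈ W, e ∈ (algebraMap F K).range
    · convert B.smul_mem (f 1) hy using 1
      funext i
      obtain ⟨c, hc⟩ := hW _ (hyW i)
      rw [Pi.smul_apply, ← hc, Algebra.algebraMap_eq_smul_one, map_smul, smul_eq_mul,
        mul_smul_comm, mul_one]
    push Not at hW
    obtain ⟨e, heW, he⟩ := hW
    obtain ⟨D, hDe⟩ := KBA.exists_der_one (L := F) (y := e) fun h => he (hF e h)
    let Dl : K →ₗ[F] K := D
    let W0 : Submodule F K := W ⊓ LinearMap.ker Dl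
    let W1 : Submodule F K := W.map Dl
    have : FiniteDimensional F W0 := Submodule.finiteDimensional_of_le inf_le_left
    have h0 : finrank F W0 < n := by
      rw [← hn]
      refine Submodule.finrank_lt_finrank_of_lt (lt_of_le_of_ne inf_le_left fun h => ?_)
      have : e ∈ W0 := h ▸ heW
      have h2 : D e = 0 := this.2
      rw [hDe] at h2
      exact one_ne_zero h2
    have h1' : finrank F W1 < n := by
      have h2 := LinearMap.finrank_range_add_finrank_ker (Dl.domRestrict W)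
      rw [LinearMap.range_domRestrict] at h2
      have h3 : 0 < finrank F (LinearMap.ker (Dl.domRestrict W)) := by
        refine Nat.pos_of_ne_zero fun h => ?_
        have h4 : (⟨1, h1⟩ : W) ∈ LinearMap.ker (Dl.domRestrict W) := D.map_one_eq_zero
        rw [Submodule.finrank_eq_zero.1 h, Submodule.mem_bot] at h4
        exact one_ne_zero (congrArg Subtype.val h4)
      change finrank F W1 + _ = _ at h2
      omega
    obtain ⟨σ0, hσ0⟩ := ((Dl.domRestrict W).codRestrict W1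
      fun y => ⟨y.1, y.2, rfl⟩).exists_rightInverse_of_surjective (by
        rw [LinearMap.range_eq_top]
        rintro ⟨_, y, hy, rfl⟩
        exact ⟨⟨y, hy⟩, rfl⟩)
    obtain ⟨σ, hσ⟩ := (W.subtype ∘ₗ σ0).exists_extend
    have hσ1 : ∀ y (hy : y ∈ W), σ (D y) = σ0 ⟨D y, y, hy, rfl⟩ := fun y hy =>
      LinearMap.congr_fun hσ ⟨D y, y, hy, rfl⟩
    have hσ2 : ∀ y ∈ W, y - σ (D y) ∈ W0 := fun y hy => by
      refine ⟨W.sub_mem hy (hσ1 y hy ▸ (σ0 _).2), ?_⟩
      have h2 : D (σ0 ⟨D y, y, hy, rfl⟩ : K) = D y :=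
        congrArg Subtype.val (LinearMap.congr_fun hσ0 ⟨D y, y, hy, rfl⟩)
      change D (y - σ (D y)) = 0
      rw [map_sub, hσ1 y hy, h2, sub_self]
    have hy1 : ∀ i, D (y i) ∈ W1 := fun i => ⟨y i, hyW i, rfl⟩
    have h3 := ih _ h1' W1 rfl σ _ (hD D y hy) hy1
    have h4 := ih _ h1' W1 rfl (f ∘ₗ σ) _ (hD D y hy) hy1
    have h5 := ih _ h0 W0 rfl f _ (sub_mem hy h3) fun i => hσ2 _ (hyW i)
    convert add_mem h5 h4 using 1
    funext i
    simp
  intro W _ hn f y hy hyW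
  by_cases hW : W = ⊥
  · convert B.zero_mem using 1
    funext i
    have := hyW i
    rw [hW, Submodule.mem_bot] at this
    simp [this]
  obtain ⟨w, hw, hw0⟩ := Submodule.exists_mem_ne_zero_of_ne_bot hW
  let m : K ≃ₗ[F] K := (LinearEquiv.smulOfNeZero K K w⁻¹ (inv_ne_zero hw0)).restrictScalars F
  have hm : ∀ y, m y = w⁻¹ * y := fun _ => rfl
  have := key (W.map m.toLinearMap) ((LinearEquiv.finrank_map_eq m W).trans hn)
    ⟨w, hw, (hm w).trans (inv_mul_cancel₀ hw0)⟩ (f ∘ₗ m.symm.toLinearMap) _ (B.smul_mem w⁻¹ hy)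
    fun i => ⟨y i, hyW i, rfl⟩
  convert this using 2 with i
  change _ = f (m.symm (m (y i)))
  rw [m.symm_apply_apply]

variable {L : Type} [Field L] [Algebra ℂ L]

/-- Elements with a pole of order at most `i` at `w`. -/
def Le (w : Val L) (i : ℕ) : Submodule ℂ L := Gam {w} fun _ => i

theorem mem_Le {w : Val L} (hw : Triv w) {i : ℕ} {z : L} : z ∈ Le w i ↔ w z ≤ exp (i : ℤ) :=
  ⟨fun h => h w rfl hw, fun h _ e _ => e ▸ h⟩

theorem indep_pow {w : Val L} {h : L} (h0 : h ≠ 0) (h1 : w h < 1) {κ : Type}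
    [Fintype κ] {f : κ → L} {γ : WithZero (Multiplicative ℤ)} (hγ : γ ≠ 0)
    (hf : ∀ c : κ → ℂ, c ≠ 0 → w (∑ k, c k • f k) = γ) (M : ℕ) :
    LinearIndependent ℂ fun p : Fin M × κ => h ^ (p.1 : ℕ) * f p.2 := by
  classical
  rw [Fintype.linearIndependent_iff]
  intro c hc
  by_contra hne
  have ne : (Finset.univ.filter fun j : Fin M => (fun k => c (j, k)) ≠ 0).Nonempty := by
    push Not at hne
    obtain ⟨⟨j, k⟩, hp⟩ := hne
    exact ⟨j, Finset.mem_filter.2 ⟨Finset.mem_univ _, fun e => hp (congrFun e k)⟩⟩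
  obtain ⟨j, hj, hmin⟩ := Finset.exists_min_image _ id ne
  have hj' := (Finset.mem_filter.1 hj).2
  have hh : 0 < w h := zero_lt_iff.2 ((map_ne_zero w).2 h0)
  have e : ∑ p : Fin M × κ, c p • (h ^ (p.1 : ℕ) * f p.2) =
      ∑ i : Fin M, h ^ (i : ℕ) * ∑ k, c (i, k) • f k := by
    rw [Fintype.sum_prod_type]
    refine Finset.sum_congr rfl fun i _ => ?_
    rw [Finset.mul_sum]
    exact Finset.sum_congr rfl fun k _ => (mul_smul_comm _ _ _).symm
  have h2 : w (h ^ (j : ℕ) * ∑ k, c (j, k) • f k) = w h ^ (j : ℕ) * γ := by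
    rw [map_mul, map_pow, hf _ hj']
  have h3 := w.map_sum_eq_of_lt (s := Finset.univ)
    (f := fun i : Fin M => h ^ (i : ℕ) * ∑ k, c (i, k) • f k) (Finset.mem_univ j) fun i hi => by
      rw [h2]
      by_cases hi0 : (fun k => c (i, k)) = 0
      · have : ∀ k, c (i, k) = 0 := congrFun hi0
        simp only [this, zero_smul, Finset.sum_const_zero, mul_zero, map_zero]
        exact zero_lt_iff.2 (mul_ne_zero (pow_ne_zero _ hh.ne') hγ)
      · rw [map_mul, map_pow, hf _ hi0]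
        refine mul_lt_mul_of_pos_right (pow_lt_pow_right_of_lt_one₀ hh h1 ?_) (zero_lt_iff.2 hγ)
        exact lt_of_le_of_ne (hmin i (Finset.mem_filter.2 ⟨Finset.mem_univ _, hi0⟩))
          fun e => by simp [Fin.ext e] at hi
  rw [← e, hc, map_zero, h2] at h3
  exact mul_ne_zero (pow_ne_zero _ hh.ne') hγ h3.symm

omit [Algebra ℂ L] in
theorem indep_mono {F : Type} [Field F] [Algebra F L] {φ : ℕ} {z : Fin φ → L}
    (hz : AlgebraicIndependent F z) (M : ℕ) :
    LinearIndependent F fun γ : Fin φ → Fin M => ∏ i, z i ^ (γ i : ℕ) := by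
  have h1 := ((MvPolynomial.basisMonomials (Fin φ) F).linearIndependent.map'
    (MvPolynomial.aeval z : MvPolynomial (Fin φ) F →ₐ[F] L).toLinearMap
    (LinearMap.ker_eq_bot.2 hz)).comp
    (fun γ : Fin φ → Fin M => Finsupp.equivFunOnFinite.symm fun i => (γ i : ℕ))
    fun γ γ' e => funext fun i => Fin.ext (by simpa using DFunLike.congr_fun e i)
  have e : (fun γ : Fin φ → Fin M => ∏ i, z i ^ (γ i : ℕ)) =
      ((MvPolynomial.aeval z : MvPolynomial (Fin φ) F →ₐ[F] L).toLinearMap ∘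
        MvPolynomial.basisMonomials (Fin φ) F) ∘
        fun γ : Fin φ → Fin M => Finsupp.equivFunOnFinite.symm fun i => (γ i : ℕ) := by
    funext γ
    simp [MvPolynomial.aeval_monomial, Finsupp.prod_fintype]
  rw [e]
  exact h1

theorem exists_compl {V : Type} [AddCommGroup V] [Module ℂ V] [FiniteDimensional ℂ V]
    (P : Submodule ℂ V) : ∃ (r : ℕ) (b : Fin r → V), finrank ℂ P + r = finrank ℂ V ∧
      ∀ c : Fin r → ℂ, c ≠ 0 → ∑ k, c k • b k ∉ P := by
  obtain ⟨Q, hQ⟩ := Submodule.exists_isCompl P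
  let b := finBasis ℂ Q
  refine ⟨_, fun k => b k, Submodule.finrank_add_eq_of_isCompl hQ, fun c hc h => hc ?_⟩
  have h1 : ((∑ k, c k • b k : Q) : V) = ∑ k, c k • (b k : V) := by simp
  have h2 := (Submodule.disjoint_def.1 hQ.disjoint) _ h (h1 ▸ (∑ k, c k • b k : Q).2)
  exact funext (Fintype.linearIndependent_iff.1 b.linearIndependent c (Subtype.ext (h1.trans h2)))

/-- A bigraded system of sections. -/
structure GS0 (L : Type) [Field L] [Algebra ℂ L] where
  Γ : ℕ → ℕ → Submodule ℂ L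
  mul : ∀ {m a m' a' f f'}, f ∈ Γ m a → f' ∈ Γ m' a' → f * f' ∈ Γ (m + m') (a + a')
  mono : ∀ {m a m' a' f}, f ∈ Γ m a → m ≤ m' → a ≤ a' → f ∈ Γ m' a'
  one : 1 ∈ Γ 0 0
  ratio : ∀ z : L, ∃ c, ∃ q ∈ Γ c c, q ≠ 0 ∧ q * z ∈ Γ c c

/-- A bigraded system of sections with controlled growth, derivatives and poles. -/
structure GS (L : Type) [Field L] [Algebra ℂ L] (N : ℕ) extends GS0 L where
  fd : ∀ m a, FiniteDimensional ℂ (Γ m a)
  growth : ∃ B, ∀ μ, finrank ℂ (Γ μ μ) ≤ B * (μ + 1) ^ N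
  der : ∀ (D : Derivation ℂ L L) (a : ℕ), ∃ e : L, e ≠ 0 ∧ ∃ c, ∀ m, ∀ f ∈ Γ m a,
    e * D f ∈ Γ (m + c) c
  poles : ∀ c, ∀ d ∈ Γ c c, d ≠ 0 → ∃ (T : Finset (Val L)) (M : ℕ), (∀ w ∈ T, Triv w) ∧
    ∀ m θ, d * θ ∈ Γ m c → (∀ w ∈ T, w θ ≤ exp (M : ℤ)) ∧ ((∀ w ∈ T, w θ ≤ 1) → θ ∈ Γ m 0)

namespace GS0

variable (S : GS0 L)

theorem pow {m a : ℕ} {f : L} (h : f ∈ S.Γ m a) (j : ℕ) : f ^ j ∈ S.Γ (j * m) (j * a) := by
  induction j with
  | zero => simpa using S.one
  | succ j ih =>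
    rw [pow_succ, add_one_mul, add_one_mul]
    exact S.mul ih h

theorem prod {κ : Type} (s : Finset κ) {c : κ → ℕ} {f : κ → L}
    (h : ∀ i ∈ s, f i ∈ S.Γ (c i) (c i)) : ∏ i ∈ s, f i ∈ S.Γ (∑ i ∈ s, c i) (∑ i ∈ s, c i) := by
  classical
  induction s using Finset.induction_on with
  | empty => simpa using S.one
  | insert i s hi ih =>
    rw [Finset.prod_insert hi, Finset.sum_insert hi]
    exact S.mul (h i (Finset.mem_insert_self _ _)) (ih fun j hj => h j (Finset.mem_insert_of_mem hj))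

theorem pow_ratio {c : ℕ} {q z : L} (hq : q ∈ S.Γ c c) (hz : q * z ∈ S.Γ c c) {j M : ℕ}
    (h : j ≤ M) : q ^ M * z ^ j ∈ S.Γ (M * c) (M * c) := by
  obtain ⟨i, rfl⟩ := Nat.exists_eq_add_of_le h
  have := S.mul (S.pow hz j) (S.pow hq i)
  rw [← add_mul] at this
  convert this using 1
  ring

/-- Families with a fixed denominator. -/
def BB {κ : Type} (wt : κ → ℕ) : Submodule L (κ → L) where
  carrier := {y | ∃ c, ∃ d ∈ S.Γ c c, d ≠ 0 ∧ ∀ i, d * y i ∈ S.Γ (wt i + c) c}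
  zero_mem' := ⟨0, 1, S.one, one_ne_zero, fun i => by simp⟩
  add_mem' := by
    rintro y y' ⟨c, d, h1, h2, h3⟩ ⟨c', d', h4, h5, h6⟩
    refine ⟨c + c', d * d', S.mul h1 h4, mul_ne_zero h2 h5, fun i => ?_⟩
    convert add_mem (S.mono (S.mul (h3 i) h4) (m' := wt i + (c + c')) (by omega) le_rfl)
      (S.mono (S.mul h1 (h6 i)) (by omega) le_rfl) using 1
    rw [Pi.add_apply]
    ring
  smul_mem' := by
    rintro z y ⟨c, d, h1, h2, h3⟩
    obtain ⟨c', q, h4, h5, h6⟩ := S.ratio z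
    refine ⟨c + c', d * q, S.mul h1 h4, mul_ne_zero h2 h5, fun i => ?_⟩
    convert S.mono (S.mul (h3 i) h6) (m' := wt i + (c + c')) (by omega) le_rfl using 1
    rw [Pi.smul_apply, smul_eq_mul]
    ring

end GS0

namespace GS

variable {N : ℕ} (S : GS L N)

theorem der_BB {κ : Type} (wt : κ → ℕ) (D : Derivation ℂ L L) {y : κ → L} (hy : y ∈ S.BB wt) :
    (fun i => D (y i)) ∈ S.BB wt := by
  obtain ⟨c, d, h1, h2, h3⟩ := hy
  obtain ⟨e, he, c₁, h4⟩ := S.der D c
  obtain ⟨c₂, q, h5, h6, h7⟩ := S.ratio e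
  refine ⟨c + c + c₁ + c₂, q * e * d * d, S.mono (S.mul (S.mul h7 h1) h1) (by omega) (by omega),
    mul_ne_zero (mul_ne_zero (mul_ne_zero h6 he) h2) h2, fun i => ?_⟩
  convert sub_mem (S.mono (S.mul h5 (S.mul h1 (h4 _ _ (h3 i)))) (m' := wt i + (c + c + c₁ + c₂))
    (a' := c + c + c₁ + c₂) (by omega) (by omega))
    (S.mono (S.mul h5 (S.mul (h3 i) (h4 _ _ h1))) (by omega) (by omega)) using 1
  rw [D.leibniz, smul_eq_mul, smul_eq_mul]
  ring

variable {F : Type} [Field F] [Algebra ℂ F] [Algebra F L] [IsScalarTower ℂ F L]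

variable (F) in
/-- Elements of the subfield with the denominator `d`. -/
def U (d : L) (c m : ℕ) : Submodule ℂ L :=
  LinearMap.range (IsScalarTower.toAlgHom ℂ F L).toLinearMap ⊓
    (S.Γ (m + c) c).comap (LinearMap.mulLeft ℂ d)

theorem U_fd {d : L} (hd : d ≠ 0) (c m : ℕ) : FiniteDimensional ℂ (S.U F d c m) := by
  have := S.fd (m + c) c
  exact Module.Finite.of_injective
    ((LinearMap.mulLeft ℂ d).restrict (q := S.Γ (m + c) c) fun _ h => h.2) fun a b e =>
    Subtype.ext (mul_left_cancel₀ hd (congrArg Subtype.val e))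

theorem step {φ ν : ℕ} {z : Fin φ → L} (hz : AlgebraicIndependent F z) (hN : N ≤ φ + ν + 1)
    {d : L} (hd : d ≠ 0) (c : ℕ) {w : Val L} (hw : Triv w) :
    ∃ C : ℕ, ∀ m i, ∀ U' ≤ S.U F d c m, U' ≤ Le w (i + 1) →
      finrank ℂ U' ≤ finrank ℂ ↥(U' ⊓ Le w i) + C * (m + 1) ^ ν := by
  by_cases H : ∀ θ : F, w (algebraMap F L θ) ≤ 1
  · refine ⟨0, fun m i U' h1 _ => ?_⟩
    rw [inf_eq_left.2, zero_mul, add_zero]
    intro θ hθ
    obtain ⟨⟨θ', rfl⟩, -⟩ := h1 hθ
    refine (mem_Le hw).2 ((H θ').trans ?_)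
    rw [← exp_zero, exp_le_exp]
    exact Int.natCast_nonneg i
  push Not at H
  obtain ⟨θ, hθ⟩ := H
  have hθ0 : algebraMap F L θ ≠ 0 := fun h => by simp [h] at hθ
  have h0 : algebraMap F L θ⁻¹ ≠ 0 := by
    rw [map_inv₀]
    exact inv_ne_zero hθ0
  have h1 : w (algebraMap F L θ⁻¹) < 1 := by
    rw [map_inv₀, map_inv₀]
    exact inv_lt_one_of_one_lt₀ hθ
  generalize θ⁻¹ = h at h0 h1
  obtain ⟨B, hB⟩ := S.growth
  obtain ⟨c₀, q₀, h2, h3, h4⟩ := S.ratio (algebraMap F L h)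
  choose c₁ q₁ h5 h6 h7 using fun i => S.ratio (z i)
  refine ⟨B * (1 + c + c₀ + ∑ i, c₁ i) ^ N, fun m i U' hU hU' => ?_⟩
  have := S.U_fd (F := F) hd c m
  have : FiniteDimensional ℂ U' := Submodule.finiteDimensional_of_le hU
  obtain ⟨r, b, e1, hb⟩ := exists_compl ((Le w i).comap U'.subtype)
  have e2 : finrank ℂ ((Le w i).comap U'.subtype) = finrank ℂ ↥(U' ⊓ Le w i) := by
    rw [← Submodule.map_comap_subtype, Submodule.finrank_map_subtype_eq]
  rw [← e1, e2]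
  refine Nat.add_le_add_left ?_ _
  choose f hf using fun k => (hU (b k).2).1
  have hf' : ∀ k, algebraMap F L (f k) = (b k).1 := hf
  have i1 := indep_pow h0 h1 (f := fun k => algebraMap F L (f k)) (γ := exp ((i + 1 : ℕ) : ℤ))
    exp_ne_zero (fun a ha => by
      have e3 : ∑ k, a k • algebraMap F L (f k) = (∑ k, a k • b k : U').1 := by simp [hf']
      have e4 := hb a ha
      rw [e3]
      generalize (∑ k, a k • b k : U') = y at e4
      have e5 : ¬ w y.1 ≤ exp (i : ℤ) := fun e => e4 ((mem_Le hw).2 e)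
      have e6 := (mem_Le hw).1 (hU' y.2)
      have e7 : w y.1 ≠ 0 := fun e => e5 (by simp [e])
      rw [← exp_log e7, exp_le_exp] at e5 e6
      rw [← exp_log e7]
      congr 1
      omega) (m + 1)
  have i2 : LinearIndependent ℂ fun p : Fin (m + 1) × Fin r => h ^ (p.1 : ℕ) * f p.2 :=
    LinearIndependent.of_comp (IsScalarTower.toAlgHom ℂ F L).toLinearMap (by
      convert i1 using 1
      funext p
      simp)
  have i3 := (linearIndependent_smul i2 (indep_mono hz (m + 1))).map'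
    (LinearMap.mulLeft ℂ (d * q₀ ^ (m + 1) * ∏ l, q₁ l ^ (m + 1))) (LinearMap.ker_eq_bot.2
      (mul_right_injective₀ (mul_ne_zero (mul_ne_zero hd (pow_ne_zero _ h3))
        (Finset.prod_ne_zero_iff.2 fun l _ => pow_ne_zero _ (h6 l)))))
  let μ := m + c + (m + 1) * c₀ + ∑ l, (m + 1) * c₁ l
  have := S.fd μ μ
  have hmem : ∀ p : (Fin (m + 1) × Fin r) × (Fin φ → Fin (m + 1)),
      (d * q₀ ^ (m + 1) * ∏ l, q₁ l ^ (m + 1)) *
        ((h ^ (p.1.1 : ℕ) * f p.1.2) • ∏ l, z l ^ (p.2 l : ℕ)) ∈ S.Γ μ μ := fun p => by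
    have e3 := S.mul (S.mul (hU (b p.1.2).2).2 (S.pow_ratio h2 h4 p.1.1.2.le))
      (S.prod Finset.univ fun l _ => S.pow_ratio (h5 l) (h7 l) (p.2 l).2.le)
    convert S.mono e3 (m' := μ) (a' := μ) le_rfl (by omega) using 1
    simp only [LinearMap.mulLeft_apply, Algebra.smul_def, map_mul, map_pow,
      hf', Finset.prod_mul_distrib]
    ring
  have i5 : LinearIndependent ℂ fun p => (⟨_, hmem p⟩ : S.Γ μ μ) :=
    LinearIndependent.of_comp (S.Γ μ μ).subtype i3
  have i4 := i5.fintype_card_le_finrank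
  simp only [Fintype.card_prod, Fintype.card_fin, Fintype.card_fun] at i4
  have e3 : μ + 1 ≤ (1 + c + c₀ + ∑ i, c₁ i) * (m + 1) := by
    simp only [μ, ← Finset.mul_sum]
    nlinarith [Nat.zero_le (c * m)]
  have e4 := (i4.trans (hB μ)).trans (Nat.mul_le_mul_left B (Nat.pow_le_pow_left e3 N))
  rw [mul_pow, ← mul_assoc] at e4
  have e5 := e4.trans (Nat.mul_le_mul_left _ (Nat.pow_le_pow_right (Nat.add_one_pos m) hN))
  refine Nat.le_of_mul_le_mul_right (c := (m + 1) ^ (φ + 1)) ?_ (by positivity)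
  exact (le_of_eq (by ring)).trans (e5.trans_eq (by ring))

variable (F) in
/-- The condition `P` has a cost of lower order. -/
def Small (d : L) (c ν : ℕ) (P : Submodule ℂ L) : Prop :=
  ∃ C : ℕ, ∀ m, ∀ U' ≤ S.U F d c m, finrank ℂ U' ≤ finrank ℂ ↥(U' ⊓ P) + C * (m + 1) ^ ν

theorem small_le {φ ν : ℕ} {z : Fin φ → L} (hz : AlgebraicIndependent F z) (hN : N ≤ φ + ν + 1)
    {d : L} (hd : d ≠ 0) (c : ℕ) {w : Val L} (hw : Triv w) (M : ℕ) :
    S.Small F d c ν (Le w M) → S.Small F d c ν (Le w 0) := by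
  induction M with
  | zero => exact id
  | succ M ih =>
    rintro ⟨C, hC⟩
    obtain ⟨C', hC'⟩ := S.step hz hN hd c hw
    refine ih ⟨C + C', fun m U' hU => ?_⟩
    have h1 := hC m U' hU
    have h2 := hC' m M (U' ⊓ Le w (M + 1)) (inf_le_left.trans hU) inf_le_right
    have := S.U_fd (F := F) hd c m
    have : FiniteDimensional ℂ ↥(U' ⊓ Le w M) :=
      Submodule.finiteDimensional_of_le (inf_le_left.trans hU)
    have h3 : finrank ℂ ↥(U' ⊓ Le w (M + 1) ⊓ Le w M) ≤ finrank ℂ ↥(U' ⊓ Le w M) :=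
      Submodule.finrank_mono (inf_le_inf_right _ inf_le_left)
    rw [add_mul]
    omega

theorem small_inf {d : L} {c ν : ℕ} (T : Finset (Val L)) :
    (∀ w ∈ T, S.Small F d c ν (Le w 0)) → S.Small F d c ν (T.inf fun w => Le w 0) := by
  classical
  induction T using Finset.induction_on with
  | empty => exact fun _ => ⟨0, fun m U' _ => by rw [Finset.inf_empty, inf_top_eq]; simp⟩
  | insert w T _ ih =>
    intro h
    obtain ⟨C, hC⟩ := h w (Finset.mem_insert_self _ _)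
    obtain ⟨C', hC'⟩ := ih fun v hv => h v (Finset.mem_insert_of_mem hv)
    refine ⟨C + C', fun m U' hU => ?_⟩
    have h1 := hC m U' hU
    have h2 := hC' m (U' ⊓ Le w 0) (inf_le_left.trans hU)
    rw [Finset.inf_insert, ← inf_assoc, add_mul]
    omega

theorem U_le {φ ν : ℕ} {z : Fin φ → L} (hz : AlgebraicIndependent F z) (hN : N ≤ φ + ν + 1)
    {d : L} (hd : d ≠ 0) {c : ℕ} (hc : d ∈ S.Γ c c) : ∃ C : ℕ, ∀ m,
      finrank ℂ (S.U F d c m) ≤ finrank ℂ (S.Γ (m + c) 0) + C * (m + 1) ^ ν := by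
  obtain ⟨T, M, h1, h2⟩ := S.poles c d hc hd
  obtain ⟨C, hC⟩ := S.small_inf (F := F) (d := d) (c := c) (ν := ν) T fun w hw =>
    S.small_le hz hN hd c (h1 w hw) M ⟨0, fun m U' hU => by
      rw [inf_eq_left.2 fun θ hθ => (mem_Le (h1 w hw)).2 ((h2 _ θ (hU hθ).2).1 w hw)]
      simp⟩
  refine ⟨C, fun m => (hC m _ le_rfl).trans (Nat.add_le_add_right ?_ _)⟩
  have := S.fd (m + c) 0
  refine Submodule.finrank_mono fun θ hθ => (h2 _ θ hθ.1.2).2 fun w hw => ?_
  simpa using (mem_Le (h1 w hw)).1 (Finset.inf_le (f := fun w => Le w 0) hw hθ.2)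

theorem main {φ ν : ℕ} {z : Fin φ → L} (hz : AlgebraicIndependent F z) (hN : N ≤ φ + ν + 1)
    (hF : ∀ e : L, IsAlgebraic F e → e ∈ (algebraMap F L).range) (a : ℕ) (W : Submodule F L)
    [FiniteDimensional F W] (hW : ∀ m, ∀ f ∈ S.Γ m a, f ∈ W) : ∃ ρ c C : ℕ, ∀ m,
      finrank ℂ (S.Γ m a) ≤ ρ * finrank ℂ (S.Γ (m + c) 0) + C * (m + 1) ^ ν := by
  have : CharZero F := charZero_of_injective_algebraMap (algebraMap ℂ F).injective
  let b := finBasis F W
  choose f hf using fun l => (Algebra.linearMap F L ∘ₗ b.coord l).exists_extend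
  have hf' : ∀ l y (hy : y ∈ W), f l y = algebraMap F L (b.repr ⟨y, hy⟩ l) := fun l y hy =>
    LinearMap.congr_fun (hf l) ⟨y, hy⟩
  choose c d h1 h2 h3 using fun l => lin_bdd (S.BB fun i : Σ m, S.Γ m a => i.1) hF
    (fun D y hy => S.der_BB _ (D.restrictScalars ℂ) hy) _ W rfl (f l) (fun i => i.2.1)
    ⟨a, 1, S.mono S.one (Nat.zero_le _) (Nat.zero_le _), one_ne_zero, fun i => by
      rw [one_mul]
      exact S.mono i.2.2 (Nat.le_add_right _ _) le_rfl⟩ fun i => hW _ _ i.2.2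
  choose C hC using fun l => S.U_le hz hN (h2 l) (h1 l)
  refine ⟨finrank F W, ∑ l, c l, ∑ l, C l, fun m => ?_⟩
  have := fun l => S.U_fd (F := F) (h2 l) (c l) m
  let T : S.Γ m a →ₗ[ℂ] (∀ l, S.U F (d l) (c l) m) := LinearMap.pi fun l =>
    (((f l).restrictScalars ℂ).domRestrict _).codRestrict _ fun s =>
      ⟨⟨_, (hf' l _ (hW _ _ s.2)).symm⟩, h3 l ⟨m, s⟩⟩
  have hT : Function.Injective T := by
    rw [injective_iff_map_eq_zero]
    intro s hs
    have h4 : b.repr ⟨s.1, hW _ _ s.2⟩ = 0 := Finsupp.ext fun l => by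
      have h5 : f l s.1 = 0 := congrArg Subtype.val (congrFun hs l)
      rwa [hf' l _ (hW _ _ s.2), map_eq_zero] at h5
    have h6 : s.1 = 0 := congrArg Subtype.val (b.repr.map_eq_zero_iff.1 h4)
    exact Subtype.ext h6
  refine (LinearMap.finrank_le_finrank_of_injective hT).trans ?_
  rw [finrank_pi_fintype, Finset.sum_mul]
  refine (Finset.sum_le_sum fun l _ => hC l m).trans ?_
  rw [Finset.sum_add_distrib]
  refine Nat.add_le_add_right ?_ _
  have := S.fd (m + ∑ l, c l) 0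
  refine (Finset.sum_le_card_nsmul _ _ (finrank ℂ (S.Γ (m + ∑ l, c l) 0)) fun l _ =>
    Submodule.finrank_mono fun θ hθ => S.mono hθ (Nat.add_le_add_left
      (Finset.single_le_sum (fun _ _ => Nat.zero_le _) (Finset.mem_univ l)) _) le_rfl).trans_eq ?_
  simp

end GS

end Pool.Agent.Lib.MP_bc213e_ag.DS
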