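import Pool.Agent.Lib.MP_bc213e_ag.DS.Abs
import Pool.Agent.Lib.MP_bc213e_ag.Hyp.Prime
import Pool.Agent.Lib.MP_bc213e_ag.CA.Main

/-! The sections of `m ξ + a H` on the projective completion of the line bundle. -/

set_option linter.unusedSectionVars false

namespace Pool.Agent.Lib.MP_bc213e_ag.DS

open Pool.Agent.Lib.MP_bc213e_ag.Hyp Pool.Agent.Lib.MP_bc213e_ag.KBB
  Pool.Agent.Lib.MP_bc213e_ag.KBD Module Filter Polynomial WithZero

variable {K ι L : Type} [Field K] [Algebra ℂ K] [Field L] [Algebra ℂ L] [Algebra K L]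
  [IsScalarTower ℂ K L] {x g : ι → Kˣ} {i₀ : ι} {u : L}

/-- Polynomials in `u` of degree at most `m` whose coefficients are sections. -/
def Gm (x g : ι → Kˣ) (u : L) (m a : ℕ) : Submodule ℂ L := Submodule.span ℂ
  {f | ∃ (i : ℕ) (s : K), i ≤ m ∧ Sec x g i a s ∧ f = algebraMap K L s * u ^ i}

theorem gen_mem {m a i : ℕ} {s : K} (hi : i ≤ m) (hs : Sec x g i a s) :
    algebraMap K L s * u ^ i ∈ Gm x g u m a := Submodule.subset_span ⟨i, s, hi, hs, rfl⟩

theorem mem_Gm {m a : ℕ} {f : L} : f ∈ Gm x g u m a ↔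
    ∃ p : K[X], aeval u p = f ∧ p.natDegree ≤ m ∧ ∀ i : ℕ, Sec x g i a (p.coeff i) := by
  constructor
  · intro h
    induction h using Submodule.span_induction with
    | mem f hf =>
      obtain ⟨i, s, hi, hs, rfl⟩ := hf
      refine ⟨monomial i s, aeval_monomial u, (natDegree_monomial_le _).trans hi, fun j => ?_⟩
      rw [coeff_monomial]
      split_ifs with h
      · exact h ▸ hs
      · exact (SecS x g j a).zero_mem
    | zero => exact ⟨0, map_zero _, by simp, fun j => (SecS x g j a).zero_mem⟩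
    | add f f' _ _ h h' =>
      obtain ⟨p, rfl, h1, h2⟩ := h
      obtain ⟨q, rfl, h3, h4⟩ := h'
      refine ⟨p + q, map_add _ _ _, (natDegree_add_le _ _).trans (max_le h1 h3), fun j => ?_⟩
      rw [coeff_add]
      exact (SecS x g j a).add_mem (h2 j) (h4 j)
    | smul c f _ h =>
      obtain ⟨p, rfl, h1, h2⟩ := h
      exact ⟨c • p, map_smul ((aeval u).restrictScalars ℂ : K[X] →ₐ[ℂ] L) c p,
        (natDegree_smul_le _ _).trans h1, fun j => (SecS x g j a).smul_mem c (h2 j)⟩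
  · rintro ⟨p, rfl, h1, h2⟩
    rw [aeval_eq_sum_range' (Nat.lt_succ_of_le h1)]
    refine Submodule.sum_mem _ fun i hi => ?_
    rw [Algebra.smul_def]
    exact gen_mem (Nat.lt_succ_iff.1 (Finset.mem_range.1 hi)) (h2 i)

theorem Gm_mul {m a m' a' : ℕ} {f f' : L} (h : f ∈ Gm x g u m a) (h' : f' ∈ Gm x g u m' a') :
    f * f' ∈ Gm x g u (m + m') (a + a') := by
  have : Gm x g u m a * Gm x g u m' a' ≤ Gm x g u (m + m') (a + a') := by
    rw [Gm, Gm, Submodule.span_mul_span, Submodule.span_le]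
    rintro _ ⟨_, ⟨i, s, hi, hs, rfl⟩, _, ⟨j, s', hj, hs', rfl⟩, rfl⟩
    have h1 := sec_mul hs hs'
    rw [← Nat.cast_add] at h1
    have h2 := gen_mem (u := u) (add_le_add hi hj) h1
    rwa [map_mul, pow_add, mul_mul_mul_comm] at h2
  exact this (Submodule.mul_mem_mul h h')

theorem sec_mono (one : x i₀ = 1) {t : ℤ} {a a' : ℕ} {s : K} (h : Sec x g t a s) (ha : a ≤ a') :
    Sec x g t a' s := by
  obtain ⟨b, rfl⟩ := Nat.exists_eq_add_of_le ha
  exact secS_mono one t a b h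

theorem Gm_mono (one : x i₀ = 1) {m a m' a' : ℕ} {f : L} (h : f ∈ Gm x g u m a) (hm : m ≤ m')
    (ha : a ≤ a') : f ∈ Gm x g u m' a' :=
  (Submodule.span_le.2 (by
    rintro _ ⟨i, s, hi, hs, rfl⟩
    exact gen_mem (hi.trans hm) (sec_mono one hs ha)) : Gm x g u m a ≤ Gm x g u m' a') h

theorem Gm_const {a : ℕ} {s : K} (hs : Sec x g 0 a s) (m : ℕ) :
    algebraMap K L s ∈ Gm x g u m a := by
  simpa using gen_mem (u := u) (Nat.zero_le m) hs

variable [Fintype ι]

theorem sec_of_chart (g : ι → Kˣ) {j : ι} {r : K} (hr : r ∈ chart x j) :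
    ∃ M : ℕ, Sec x g 0 M (r * (x j : K) ^ M) := by
  choose e he using fun i => chart_trans x j i hr
  refine ⟨Finset.univ.sup e, fun i => ?_⟩
  obtain ⟨c, hc⟩ := Nat.exists_eq_add_of_le (Finset.le_sup (f := e) (Finset.mem_univ i))
  rw [zpow_zero, one_mul, mul_div_assoc, ← div_pow, hc, pow_add, ← mul_assoc]
  exact mul_mem (he i) (pow_mem (Basic_mem x i j) c)

theorem clear (hc : Cart x g) (one : x i₀ = 1) (frac : IsFractionRing (chart x i₀) K) (k : K)
    (i : ℕ) : ∃ (c : ℕ) (t : K), t ≠ 0 ∧ i ≤ c ∧ Sec x g 0 c t ∧ Sec x g i c (t * k) := by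
  obtain ⟨r₁, r₂, h2, h⟩ := IsFractionRing.div_surjective (chart x i₀) (k / (g i₀ : K) ^ i)
  have h3 : (r₂ : K) ≠ 0 := fun e => nonZeroDivisors.ne_zero h2 (Subtype.ext e)
  obtain ⟨M₁, h4⟩ := sec_of_chart g r₁.2
  obtain ⟨M₂, h5⟩ := sec_of_chart g r₂.2
  obtain ⟨e, h6⟩ := main_sec hc i i₀
  have h7 := sec_mul h4 h6
  simp only [one, Units.val_one, one_pow, mul_one, fr, zpow_natCast, zero_add] at h5 h7
  refine ⟨M₁ + e + M₂ + i, r₂, h3, by omega, sec_mono one h5 (by omega), ?_⟩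
  have h8 : (r₂ : K) * k = r₁ * (g i₀ : K) ^ i := by
    rw [mul_comm]
    exact ((div_eq_div_iff h3 (pow_ne_zero i (g i₀).ne_zero)).1 h).symm
  rw [h8]
  exact sec_mono one h7 (by omega)

theorem Gm_ratio (hc : Cart x g) (one : x i₀ = 1) (frac : IsFractionRing (chart x i₀) K)
    (gen : IntermediateField.adjoin K {u} = ⊤) (z : L) :
    ∃ c, ∃ q ∈ Gm x g u c c, q ≠ 0 ∧ q * z ∈ Gm x g u c c := by
  have hz : z ∈ IntermediateField.adjoin K {u} := gen ▸ IntermediateField.mem_top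
  induction hz using IntermediateField.adjoin_induction with
  | mem z hz =>
    obtain rfl : z = u := hz
    obtain ⟨c, t, h1, h2, h3, h4⟩ := clear hc one frac 1 1
    refine ⟨c, _, Gm_const h3 c, (_root_.map_ne_zero _).2 h1, ?_⟩
    simpa using gen_mem (u := z) h2 h4
  | algebraMap k =>
    obtain ⟨c, t, h1, -, h3, h4⟩ := clear hc one frac k 0
    refine ⟨c, _, Gm_const h3 c, (_root_.map_ne_zero _).2 h1, ?_⟩
    rw [← map_mul]
    exact Gm_const h4 c
  | add a b _ _ ha hb =>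
    obtain ⟨c, q, h1, h2, h3⟩ := ha
    obtain ⟨c', q', h4, h5, h6⟩ := hb
    refine ⟨c + c', q * q', Gm_mul h1 h4, mul_ne_zero h2 h5, ?_⟩
    convert add_mem (Gm_mul h3 h4) (Gm_mul h1 h6) using 1
    ring
  | inv a _ ha =>
    obtain ⟨c, q, h1, h2, h3⟩ := ha
    by_cases h0 : a = 0
    · exact ⟨c, q, h1, h2, by simp [h0]⟩
    · exact ⟨c, q * a, h3, mul_ne_zero h2 h0, by rwa [mul_inv_cancel_right₀ h0]⟩
  | mul a b _ _ ha hb =>
    obtain ⟨c, q, h1, h2, h3⟩ := ha
    obtain ⟨c', q', h4, h5, h6⟩ := hb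
    refine ⟨c + c', q * q', Gm_mul h1 h4, mul_ne_zero h2 h5, ?_⟩
    rw [mul_mul_mul_comm]
    exact Gm_mul h3 h6

/-- The system of sections. -/
def gs0 (hc : Cart x g) (one : x i₀ = 1) (frac : IsFractionRing (chart x i₀) K)
    (gen : IntermediateField.adjoin K {u} = ⊤) : GS0 L where
  Γ := Gm x g u
  mul := Gm_mul
  mono := Gm_mono one
  one := by simpa using Gm_const (u := u) (sec_one x g) 0
  ratio := Gm_ratio hc one frac gen

theorem common (A : Subalgebra ℂ K) [IsFractionRing A K] {κ : Type} [Finite κ] (f : κ → K) :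
    ∃ d ∈ A, d ≠ 0 ∧ ∀ k, d * f k ∈ A := by
  obtain ⟨b, hb⟩ := IsLocalization.exist_integer_multiples_of_finite (nonZeroDivisors A) f
  refine ⟨b.1, b.1.2, fun e => nonZeroDivisors.ne_zero b.2 (Subtype.ext e), fun k => ?_⟩
  obtain ⟨r, hr⟩ := hb k
  exact (show (r : K) = b.1 * f k from hr) ▸ r.2

theorem loc_der (g : ι → Kˣ) {j : ι} (frac : IsFractionRing (chart x j) K) (D : Derivation ℂ K K) :
    ∃ d ∈ chart x j, d ≠ 0 ∧ ∀ (i a : ℕ) (s : K), s / ((g j : K) ^ i * (x j : K) ^ a) ∈ chart x j →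
      d * D s / ((g j : K) ^ i * (x j : K) ^ a) ∈ chart x j := by
  obtain ⟨d, h1, h2, h3⟩ := common (chart x j) fun o : Option (Option ι) =>
    o.elim (D (g j) / g j) fun o => o.elim (D (x j) / x j) fun l => D ((x l : K) / x j)
  have h4 : ∀ r ∈ chart x j, d * D r ∈ chart x j := by
    intro r hr
    induction hr using Algebra.adjoin_induction with
    | mem r hr =>
      obtain ⟨l, rfl⟩ := hr
      exact h3 (some (some l))
    | algebraMap c => simp
    | add a b _ _ ha hb =>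
      rw [map_add, mul_add]
      exact add_mem ha hb
    | mul a b ha' hb' ha hb =>
      rw [D.leibniz, smul_eq_mul, smul_eq_mul, mul_add, mul_left_comm, mul_left_comm d]
      exact add_mem (mul_mem ha' hb) (mul_mem hb' ha)
  refine ⟨d, h1, h2, fun i a s hs => ?_⟩
  have hg := (g j).ne_zero
  have hx := (x j).ne_zero
  obtain ⟨r, rfl⟩ : ∃ r, s = r * ((g j : K) ^ i * (x j : K) ^ a) :=
    ⟨_, (div_mul_cancel₀ s (mul_ne_zero (pow_ne_zero i hg) (pow_ne_zero a hx))).symm⟩
  rw [mul_div_cancel_right₀ _ (mul_ne_zero (pow_ne_zero i hg) (pow_ne_zero a hx))] at hs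
  have h5 : ∀ (z : K) (k : ℕ), z ≠ 0 → D (z ^ k) = z ^ k * (k * (D z / z)) := fun z k hz => by
    cases k with
    | zero => simp
    | succ k =>
      rw [D.leibniz_pow, Nat.add_sub_cancel, smul_eq_mul, nsmul_eq_mul]
      field_simp
      ring
  convert add_mem (h4 r hs) (mul_mem hs (add_mem (mul_mem (natCast_mem _ i) (h3 none))
    (mul_mem (natCast_mem _ a) (h3 (some none))))) using 1
  simp only [D.leibniz, smul_eq_mul, h5 _ _ hg, h5 _ _ hx, Option.elim]
  field_simp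
  ring

theorem sec_prod (s : Finset ι) {t : ι → K} {M : ι → ℕ} (h : ∀ l, Sec x g 0 (M l) (t l)) :
    Sec x g 0 (∑ l ∈ s, M l) (∏ l ∈ s, t l) := by
  classical
  induction s using Finset.induction_on with
  | empty => simpa using sec_one x g
  | insert l s hl ih =>
    rw [Finset.sum_insert hl, Finset.prod_insert hl]
    simpa using sec_mul (h l) ih

theorem sec_der (g : ι → Kˣ) (frac : ∀ j, IsFractionRing (chart x j) K) (D : Derivation ℂ K K) :
    ∃ (t : K) (c : ℕ), t ≠ 0 ∧ Sec x g 0 c t ∧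
      ∀ (i a : ℕ) (s : K), Sec x g i a s → Sec x g i (a + c) (t * D s) := by
  classical
  choose d h1 h2 h3 using fun j => loc_der g (frac j) D
  choose M h4 using fun j => sec_of_chart g (h1 j)
  refine ⟨_, _, Finset.prod_ne_zero_iff.2 fun j _ =>
    mul_ne_zero (h2 j) (pow_ne_zero _ (x j).ne_zero), sec_prod Finset.univ h4,
    fun i a s hs j => ?_⟩
  have h5 := mul_mem (h3 j i a s (by simpa using hs j)) (sec_prod (Finset.univ.erase j) h4 j)
  rw [← Finset.mul_prod_erase _ _ (Finset.mem_univ j), ← Finset.add_sum_erase _ _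
    (Finset.mem_univ j)]
  convert h5 using 1
  have hg := (g j).ne_zero
  have hx := (x j).ne_zero
  rw [zpow_zero, zpow_natCast, pow_add, pow_add]
  field_simp

theorem der_split {n : ℕ} {τ : Fin n → K} (hτ : IsTranscendenceBasis ℂ τ)
    {d : Fin n → Derivation ℂ K K} (hd : ∀ a b, d a (τ b) = if a = b then 1 else 0)
    (D : Derivation ℂ L L) (s : K) :
    D (algebraMap K L s) = ∑ b, D (algebraMap K L (τ b)) * algebraMap K L (d b s) := by
  let δ : Fin n → Derivation ℂ K L := fun b =>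
    D (algebraMap K L (τ b)) • (Algebra.linearMap K L).compDer (d b)
  have hs : ∀ v, (∑ b, δ b) v = ∑ b, D (algebraMap K L (τ b)) * algebraMap K L (d b v) :=
    fun v => by
      have := congrFun (map_sum (Derivation.coeFnAddMonoidHom (R := ℂ) (A := K) (M := L))
        δ Finset.univ) v
      rw [Finset.sum_apply] at this
      exact this
  have h0 := TCI.der_eq_zero τ hτ (D.compAlgebraMap K - ∑ b, δ b) fun a => by
    rw [Derivation.sub_apply, hs]
    simp [hd]
  have h1 := congrArg (fun D : Derivation ℂ K L => D s) h0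
  simp only [Derivation.sub_apply, hs, Derivation.zero_apply] at h1
  exact sub_eq_zero.1 h1

theorem Gm_der (hc : Cart x g) (one : x i₀ = 1) (frac : ∀ j, IsFractionRing (chart x j) K)
    {n : ℕ} (dim : Algebra.trdeg ℂ K = n) (gen : IntermediateField.adjoin K {u} = ⊤)
    (hu : u ≠ 0) (D : Derivation ℂ L L) (a : ℕ) : ∃ e : L, e ≠ 0 ∧ ∃ c, ∀ m,
      ∀ f ∈ Gm x g u m a, e * D f ∈ Gm x g u (m + c) c := by
  obtain ⟨τ, -, hτ, -⟩ := nn _ (CA.gen_top one (frac i₀)) dim
  obtain ⟨d, hd⟩ := TCI.exists_dual τ hτ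
  let S := gs0 hc one (frac i₀) gen
  let wt : {p : ℕ × K // Sec x g p.1 a p.2} → ℕ := fun p => p.1.1
  have h1 : ∀ b, (fun p => algebraMap K L (d b p.1.2) * u ^ p.1.1) ∈ S.BB wt := fun b => by
    obtain ⟨t, c, h1, h2, h3⟩ := sec_der g frac (d b)
    refine ⟨a + c, _, Gm_const (sec_mono one h2 (by omega)) _, (_root_.map_ne_zero _).2 h1,
      fun p => ?_⟩
    rw [← mul_assoc, ← map_mul]
    exact gen_mem (Nat.le_add_right _ _) (h3 _ _ _ p.2)
  have h2 : (fun p => (p.1.1 : ℂ) • (algebraMap K L p.1.2 * u ^ p.1.1)) ∈ S.BB wt :=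
    ⟨a, 1, S.mono S.one (Nat.zero_le _) (Nat.zero_le _), one_ne_zero, fun p => by
      rw [one_mul]
      exact Submodule.smul_mem _ _ (gen_mem (Nat.le_add_right _ _) p.2)⟩
  obtain ⟨c, e, -, h3, h4⟩ := add_mem (Submodule.sum_mem _ fun b (_ : b ∈ Finset.univ) =>
    (S.BB wt).smul_mem (D (algebraMap K L (τ b))) (h1 b)) ((S.BB wt).smul_mem (D u / u) h2)
  refine ⟨e, h3, c, fun m f hf => ?_⟩
  induction hf using Submodule.span_induction with
  | mem f hf =>
    obtain ⟨i, s, hi, hs, rfl⟩ := hf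
    convert Gm_mono one (h4 ⟨(i, s), hs⟩) (Nat.add_le_add_right hi c) le_rfl using 2
    rw [D.leibniz, der_split hτ hd D s, D.leibniz_pow]
    simp only [Pi.add_apply, Finset.sum_apply, Pi.smul_apply, smul_eq_mul, Finset.mul_sum,
      nsmul_eq_mul, Nat.cast_smul_eq_nsmul]
    rw [add_comm]
    congr 1
    · exact Finset.sum_congr rfl fun b _ => by ring
    · cases i with
      | zero => simp
      | succ i =>
        rw [Nat.add_sub_cancel]
        field_simp
        ring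
  | zero => simp
  | add f f' _ _ h h' =>
    rw [map_add, mul_add]
    exact add_mem h h'
  | smul c f _ h =>
    rw [D.map_smul, mul_smul_comm]
    exact Submodule.smul_mem _ c h

theorem Gm_equiv (hu : Transcendental K u) (x g : ι → Kˣ) (m a : ℕ) :
    Nonempty ((∀ i : Fin (m + 1), SecS x g (i : ℕ) a) ≃ₗ[ℂ] Gm x g u m a) := by
  let T : (∀ i : Fin (m + 1), SecS x g (i : ℕ) a) →ₗ[ℂ] L :=
    ∑ i : Fin (m + 1), (LinearMap.mulRight ℂ (u ^ (i : ℕ))) ∘ₗ
      (IsScalarTower.toAlgHom ℂ K L).toLinearMap ∘ₗ (SecS x g (i : ℕ) a).subtype ∘ₗ LinearMap.proj i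
  have hT : ∀ s, T s = ∑ i : Fin (m + 1), algebraMap K L (s i) * u ^ (i : ℕ) := fun s => by
    simp [T]
  have h1 : Function.Injective T := by
    rw [injective_iff_map_eq_zero]
    intro s hs
    have h2 : ∑ i : Fin (m + 1), monomial (i : ℕ) (s i : K) = 0 :=
      transcendental_iff.1 hu _ (by simpa [hT, aeval_monomial] using hs)
    funext i
    have h3 := congrArg (coeff · (i : ℕ)) h2
    simp only [finsetSum_coeff, coeff_monomial, Fin.val_inj, Finset.sum_ite_eq', Finset.mem_univ,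
      if_true, coeff_zero] at h3
    exact Subtype.ext h3
  have h2 : LinearMap.range T = Gm x g u m a := by
    refine le_antisymm ?_ (Submodule.span_le.2 ?_)
    · rintro _ ⟨s, rfl⟩
      rw [hT]
      exact Submodule.sum_mem _ fun i _ => gen_mem (Nat.lt_succ_iff.1 i.2) (s i).2
    · rintro _ ⟨i, s, hi, hs, rfl⟩
      refine ⟨Pi.single ⟨i, Nat.lt_succ_of_le hi⟩ ⟨s, hs⟩, ?_⟩
      rw [hT, Finset.sum_eq_single ⟨i, Nat.lt_succ_of_le hi⟩ (fun j _ hj => by
        simp [Pi.single_eq_of_ne hj]) (by simp), Pi.single_eq_same]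
  exact ⟨(LinearEquiv.ofInjective T h1).trans (LinearEquiv.ofEq _ _ h2)⟩

theorem Gm_fd (hc : Cart x g) (hn : Nef x g) (i₀ : ι) (hu : Transcendental K u) (m a : ℕ) :
    FiniteDimensional ℂ (Gm x g u m a) := by
  have := fun i : Fin (m + 1) => secS_fd hc hn i₀ i a
  exact (Gm_equiv hu x g m a).some.finiteDimensional

theorem finrank_Gm (hc : Cart x g) (hn : Nef x g) (i₀ : ι) (hu : Transcendental K u) (m a : ℕ) :
    finrank ℂ (Gm x g u m a) = ∑ i ∈ Finset.range (m + 1), finrank ℂ (SecS x g i a) := by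
  have := fun i : Fin (m + 1) => secS_fd hc hn i₀ i a
  rw [← (Gm_equiv hu x g m a).some.finrank_eq, finrank_pi_fintype, Finset.sum_range]

theorem sec_growth (hc : Cart x g) (one : x i₀ = 1) (frac : IsFractionRing (chart x i₀) K)
    {n : ℕ} (dim : Algebra.trdeg ℂ K = n) :
    ∃ B e : ℕ, ∀ t a : ℕ, finrank ℂ (SecS x g t a) ≤ B * (t * e + a + 1) ^ n := by
  have : Nonempty ι := ⟨i₀⟩
  obtain ⟨B, hB⟩ := cd_dim _ (CA.gen_top one frac) dim
  obtain ⟨e, he⟩ := main_sec hc (-1) i₀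
  refine ⟨B, e, fun t a => ?_⟩
  have := (hB (t * e + a)).1
  exact (finrank_le_of_mul (SecS x g t a)
    (Bd (fun i => (x i : K)) (t * e + a)) (pow_ne_zero t (fr_ne x g (-1) e i₀))
    fun s hs => secS_le_Bd x g _ (by
      have := sec_mul (sec_pow he t) (show Sec x g _ _ s from hs)
      rwa [mul_neg_one, neg_add_cancel] at this)).2.trans (hB _).2

theorem Gm_growth (hc : Cart x g) (hn : Nef x g) (one : x i₀ = 1)
    (frac : IsFractionRing (chart x i₀) K) {n : ℕ} (dim : Algebra.trdeg ℂ K = n)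
    (hu : Transcendental K u) :
    ∃ B, ∀ μ, finrank ℂ (Gm x g u μ μ) ≤ B * (μ + 1) ^ (n + 1) := by
  obtain ⟨B, e, h⟩ := sec_growth hc one frac dim
  refine ⟨B * (e + 1) ^ n, fun μ => ?_⟩
  rw [finrank_Gm hc hn i₀ hu]
  refine (Finset.sum_le_card_nsmul _ _ (B * ((e + 1) * (μ + 1)) ^ n) fun i hi =>
    (h i μ).trans (Nat.mul_le_mul_left _ (Nat.pow_le_pow_left ?_ _))).trans_eq ?_
  · have := Nat.mul_le_mul_right e (Finset.mem_range.1 hi).le
    nlinarith
  · rw [Finset.card_range, smul_eq_mul, mul_pow]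
    ring

/-- The chart of the total space as an image of the polynomial ring. -/
noncomputable def psi (x g : ι → Kˣ) (u : L) (j : ι) : (chart x j)[X] →ₐ[ℂ] L :=
  aevalTower ((IsScalarTower.toAlgHom ℂ K L).comp (chart x j).val) (algebraMap K L (g j) * u)

theorem psi_eq (j : ι) (P : (chart x j)[X]) :
    psi x g u j P = aeval u ((P.map (chart x j).val.toRingHom).comp (C (g j : K) * X)) := by
  induction P using Polynomial.induction_on' with
  | add p q hp hq => simp only [map_add, Polynomial.map_add, add_comp, hp, hq]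
  | monomial i r =>
    rw [← C_mul_X_pow_eq_monomial]
    simp [psi]

theorem psi_inj (hu : Transcendental K u) (j : ι) : Function.Injective (psi x g u j) := by
  rw [injective_iff_map_eq_zero]
  intro P hP
  rw [psi_eq] at hP
  ext i
  have := congrArg (coeff · i) (transcendental_iff.1 hu _ hP)
  simpa [(g j).ne_zero] using this

theorem mem_psi {j : ι} {f : L} : f ∈ (psi x g u j).range ↔
    ∃ p : K[X], aeval u p = f ∧ ∀ i, p.coeff i / (g j : K) ^ i ∈ chart x j := by
  constructor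
  · rintro ⟨P, rfl⟩
    refine ⟨_, (psi_eq j P).symm, fun i => ?_⟩
    rw [comp_C_mul_X_coeff, mul_div_cancel_right₀ _ (pow_ne_zero i (g j).ne_zero), coeff_map]
    exact (P.coeff i).2
  · rintro ⟨p, rfl, h⟩
    rw [aeval_eq_sum_range]
    refine sum_mem fun i _ => ⟨C ⟨_, h i⟩ * X ^ i, ?_⟩
    have hg : algebraMap K L (g j) ≠ 0 := (_root_.map_ne_zero _).2 (g j).ne_zero
    simp only [psi, AlgHom.toRingHom_eq_coe, RingHom.coe_coe, map_mul, map_pow, aevalTower_C,
      aevalTower_X, Algebra.smul_def, AlgHom.comp_apply, Subalgebra.coe_val,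
      IsScalarTower.coe_toAlgHom', map_div₀, mul_pow]
    field_simp

theorem div_mem_psi {m a : ℕ} {f : L} (h : f ∈ Gm x g u m a) (j : ι) :
    f / algebraMap K L (x j) ^ a ∈ (psi x g u j).range := by
  obtain ⟨p, rfl, -, h2⟩ := mem_Gm.1 h
  refine mem_psi.2 ⟨C ((x j : K) ^ a)⁻¹ * p, by simp [div_eq_inv_mul], fun i => ?_⟩
  convert h2 i j using 1
  rw [coeff_C_mul, zpow_natCast]
  field_simp

theorem Gm_poles (hc : Cart x g) (one : x i₀ = 1) (frac : IsFractionRing (chart x i₀) K)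
    (norm : ∀ i, IsIntegrallyClosed (chart x i)) (hu : Transcendental K u)
    (gen : IntermediateField.adjoin K {u} = ⊤) (c : ℕ) (d : L) (hd : d ∈ Gm x g u c c)
    (hd0 : d ≠ 0) : ∃ (T : Finset (Val L)) (M : ℕ), (∀ w ∈ T, Triv w) ∧
      ∀ m θ, d * θ ∈ Gm x g u m c →
        (∀ w ∈ T, w θ ≤ exp (M : ℤ)) ∧ ((∀ w ∈ T, w θ ≤ 1) → θ ∈ Gm x g u m 0) := by
  have hx : ∀ j a, algebraMap K L (x j) ^ a ≠ 0 := fun j a =>
    pow_ne_zero a ((_root_.map_ne_zero _).2 (x j).ne_zero)
  have e := fun j => (AlgEquiv.ofInjective _ (psi_inj (x := x) (g := g) hu j)).toRingEquiv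
  have i1 : ∀ j, IsNoetherianRing (psi x g u j).range := fun j => by
    have := chart_noeth x j
    exact isNoetherianRing_of_ringEquiv _ (e j)
  have i2 : ∀ j, IsIntegrallyClosed (psi x g u j).range := fun j => by
    have := norm j
    exact .of_equiv (e j)
  have i3 : ∀ j, IsFractionRing (psi x g u j).range L := fun j => .of_field _ _ fun z => by
    obtain ⟨c, q, h1, h2, h3⟩ := Gm_ratio hc one frac gen z
    refine ⟨⟨_, div_mem_psi h3 j⟩, ⟨_, div_mem_psi h1 j⟩, ?_⟩
    have := hx j c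
    change z = q * z / _ / (q / _)
    field_simp
  have hd1 : ∀ j, d / algebraMap K L (x j) ^ c ≠ 0 := fun j => div_ne_zero hd0 (hx j c)
  have hfin := Set.finite_iUnion fun j => finite_zeros (div_mem_psi hd j) (hd1 j)
  have hb : ∀ j m θ, d * θ ∈ Gm x g u m c → ∀ w, PrimeDiv (psi x g u j).range w →
      w (d / algebraMap K L (x j) ^ c) * w θ ≤ 1 := fun j m θ h w hw => by
    rw [← map_mul, div_mul_eq_mul_div]
    exact hw.2.1 _ (div_mem_psi h j)
  have hM : ∀ w ∈ hfin.toFinset, ∃ M : ℕ, ∀ m θ, d * θ ∈ Gm x g u m c → w θ ≤ exp (M : ℤ) := by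
    intro w hw
    obtain ⟨j, hj, -⟩ := Set.mem_iUnion.1 (hfin.mem_toFinset.1 hw)
    have h0 : w (d / algebraMap K L (x j) ^ c) ≠ 0 := (_root_.map_ne_zero w).2 (hd1 j)
    refine ⟨(-log (w (d / algebraMap K L (x j) ^ c))).toNat, fun m θ h => ?_⟩
    refine ((le_inv_mul_iff₀ (zero_lt_iff.2 h0)).2 (hb j m θ h w hj)).trans ?_
    rw [mul_one, ← exp_log h0, ← exp_neg, exp_le_exp, log_exp]
    exact Int.self_le_toNat _
  choose! M hM using hM
  refine ⟨hfin.toFinset, hfin.toFinset.sup M, fun w hw => ?_, fun m θ h =>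
    ⟨fun w hw => (hM w hw m θ h).trans ?_, fun h1 => ?_⟩⟩
  · obtain ⟨j, hj, -⟩ := Set.mem_iUnion.1 (hfin.mem_toFinset.1 hw)
    exact hj.triv
  · rw [exp_le_exp, Nat.cast_le]
    exact Finset.le_sup hw
  have h2 : ∀ j, θ ∈ (psi x g u j).range := fun j => hartogs fun w hw => by
    by_cases h3 : w (d / algebraMap K L (x j) ^ c) < 1
    · exact h1 w (hfin.mem_toFinset.2 (Set.mem_iUnion.2 ⟨j, hw, h3⟩))
    · have h4 := hb j m θ h w hw
      rwa [(hw.2.1 _ (div_mem_psi hd j)).eq_of_not_lt h3, one_mul] at h4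
  have inj : Function.Injective (aeval u : K[X] →ₐ[K] L) := transcendental_iff_injective.1 hu
  choose p h3 h4 using fun j => mem_psi.1 (h2 j)
  obtain ⟨P, h5, -, -⟩ := mem_Gm.1 hd
  obtain ⟨Q, h6, h7, -⟩ := mem_Gm.1 h
  have h8 : P * p i₀ = Q := inj (by rw [map_mul, h5, h3, h6])
  refine mem_Gm.2 ⟨p i₀, h3 i₀, ?_, fun i j => ?_⟩
  · by_cases h9 : p i₀ = 0
    · simp [h9]
    · have h10 : P ≠ 0 := fun e => hd0 (by rw [← h5, e, map_zero])
      rw [← h8, natDegree_mul h10 h9] at h7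
      omega
  · rw [inj ((h3 i₀).trans (h3 j).symm)]
    simpa using h4 j i

/-- The system of sections with all its properties. -/
def gs (hc : Cart x g) (hn : Nef x g) (one : x i₀ = 1) (frac : ∀ j, IsFractionRing (chart x j) K)
    (norm : ∀ i, IsIntegrallyClosed (chart x i)) {n : ℕ} (dim : Algebra.trdeg ℂ K = n)
    (hu : Transcendental K u) (gen : IntermediateField.adjoin K {u} = ⊤) : GS L (n + 1) where
  toGS0 := gs0 hc one (frac i₀) gen
  fd := Gm_fd hc hn i₀ hu
  growth := Gm_growth hc hn one (frac i₀) dim hu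
  der := Gm_der hc one frac dim gen fun e => hu (e ▸ isAlgebraic_zero)
  poles := Gm_poles hc one (frac i₀) norm hu gen

end Pool.Agent.Lib.MP_bc213e_ag.DS
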