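import Pool.Agent.Lib.MP_bc213e_ag.DS.Gm

/-! The endgame: from sections of finite rank over a small subfield of `K (u)` to sections of the
multiples of the divisor, and to a small subfield of `K`. -/

set_option linter.unusedSectionVars false

namespace Pool.Agent.Lib.MP_bc213e_ag.DS

open Pool.Agent.Lib.MP_bc213e_ag.Hyp Pool.Agent.Lib.MP_bc213e_ag.KBB
  Pool.Agent.Lib.MP_bc213e_ag.KBD Module Filter Polynomial WithZero

theorem num {h0 h1 : ℕ → ℕ} {ρ c C ν : ℕ} (H : ∀ m, ∑ i ∈ Finset.range (m + 1), h1 i ≤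
    ρ * ∑ i ∈ Finset.range (m + c + 1), h0 i + C * (m + 1) ^ ν) {c0 : ℚ} (hc : 0 < c0)
    (big : ∀ᶠ t : ℕ in atTop, c0 * (t : ℚ) ^ ν ≤ h1 t) :
    ∃ δ : ℚ, 0 < δ ∧ ∃ᶠ t : ℕ in atTop, δ * (t : ℚ) ^ ν ≤ h0 t := by
  refine ⟨c0 / (2 * (ρ + 1) * 3 ^ (ν + 1)), by positivity, fun h => ?_⟩
  set δ : ℚ := c0 / (2 * (ρ + 1) * 3 ^ (ν + 1)) with hδ
  have δ0 : 0 < δ := by positivity
  obtain ⟨T, hT⟩ := eventually_atTop.1 (big.and h)
  obtain ⟨k, k₁, k2, k3⟩ : ∃ k : ℕ, T ≤ k ∧ c + 1 ≤ k ∧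
      2 * (ρ * ∑ i ∈ Finset.range T, (h0 i : ℚ) + C * 3 ^ ν) / c0 < k := by
    obtain ⟨k, hk⟩ := exists_nat_gt (2 * (ρ * ∑ i ∈ Finset.range T, (h0 i : ℚ) + C * 3 ^ ν) / c0)
    exact ⟨k + T + c + 1, by omega, by omega, hk.trans_le (Nat.cast_le.2 (by omega))⟩
  have e1 : (k : ℚ) * (c0 * k ^ ν) ≤ ∑ i ∈ Finset.range (2 * k + 1), (h1 i : ℚ) := by
    refine le_trans ?_ (Finset.sum_le_sum_of_subset_of_nonneg (s := Finset.Ico k (2 * k))
      (fun i hi => Finset.mem_range.2 (by have := (Finset.mem_Ico.1 hi).2; omega))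
      fun _ _ _ => Nat.cast_nonneg _)
    refine le_trans (le_of_eq ?_) (Finset.card_nsmul_le_sum _ _ (c0 * (k : ℚ) ^ ν) fun i hi => ?_)
    · rw [Nat.card_Ico, nsmul_eq_mul, two_mul, Nat.add_sub_cancel]
    · have := (Finset.mem_Ico.1 hi).1
      refine le_trans ?_ (hT i (k₁.trans this)).1
      gcongr
  have e2 : ∑ i ∈ Finset.range (2 * k + c + 1), (h0 i : ℚ) ≤
      ∑ i ∈ Finset.range T, (h0 i : ℚ) + 3 * k * (δ * (3 * k) ^ ν) := by
    rw [← Finset.sum_range_add_sum_Ico _ (show T ≤ 2 * k + c + 1 by omega)]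
    refine add_le_add_right ((Finset.sum_le_card_nsmul _ _ (δ * (3 * k : ℚ) ^ ν)
      fun i hi => ?_).trans ?_) _
    · have := Finset.mem_Ico.1 hi
      refine (not_le.1 (hT i this.1).2).le.trans ?_
      have : (i : ℚ) ≤ 3 * k := by exact_mod_cast (show i ≤ 3 * k by omega)
      gcongr
    · rw [Nat.card_Ico, nsmul_eq_mul]
      have : ((2 * k + c + 1 - T : ℕ) : ℚ) ≤ 3 * k := by
        exact_mod_cast (show 2 * k + c + 1 - T ≤ 3 * k by omega)
      gcongr
  have e3 : ∑ i ∈ Finset.range (2 * k + 1), (h1 i : ℚ) ≤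
      ρ * ∑ i ∈ Finset.range (2 * k + c + 1), (h0 i : ℚ) + C * (2 * k + 1) ^ ν := by
    exact_mod_cast H (2 * k)
  have k4 : (1 : ℚ) ≤ k := by exact_mod_cast (show 1 ≤ k by omega)
  have e4 : (2 * k + 1 : ℚ) ^ ν ≤ 3 ^ ν * k ^ ν := by
    rw [← mul_pow]
    gcongr
    linarith
  have e5 : ρ * (3 * k * (δ * (3 * k) ^ ν)) ≤ k * (c0 * k ^ ν) / 2 := by
    have : (ρ : ℚ) * (3 * k * (δ * (3 * k) ^ ν)) = ρ / (ρ + 1) * (k * (c0 * k ^ ν) / 2) := by
      rw [hδ, mul_pow]
      field_simp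
      ring
    rw [this]
    exact mul_le_of_le_one_left (by positivity) ((div_le_one (by positivity)).2 (by linarith))
  have e6 : (1 : ℚ) ≤ k ^ ν := one_le_pow₀ k4
  rw [div_lt_iff₀ hc] at k3
  have e7 : (0 : ℚ) ≤ ρ * ∑ i ∈ Finset.range T, (h0 i : ℚ) := by positivity
  have e8 := mul_lt_mul_of_pos_right k3 (zero_lt_one.trans_le e6)
  have e9 := mul_le_mul_of_nonneg_left e2 (Nat.cast_nonneg (α := ℚ) ρ)
  have e10 := mul_le_mul_of_nonneg_left e4 (Nat.cast_nonneg (α := ℚ) C)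
  have e11 := mul_le_mul_of_nonneg_left e6 e7
  nlinarith

variable {K ι L : Type} [Field K] [Algebra ℂ K] [Field L] [Algebra ℂ L] [Algebra K L]
  [IsScalarTower ℂ K L] {x g : ι → Kˣ} {i₀ : ι}

theorem trdeg_simple {u : L} (hu : Transcendental K u)
    (gen : IntermediateField.adjoin K {u} = ⊤) : Algebra.trdeg K L = 1 := by
  have h1 : AlgebraicIndependent K fun _ : Unit => u := algebraicIndependent_unique_type_iff.2 hu
  have h2 : IsTranscendenceBasis K fun _ : Unit => u := by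
    refine h1.isTranscendenceBasis_iff_isAlgebraic.2 ?_
    rw [← IntermediateField.isAlgebraic_adjoin_iff_top, Set.range_const, gen]
    exact ⟨fun z => isAlgebraic_algebraMap (⟨z, trivial⟩ : (⊤ : IntermediateField K L))⟩
  rw [← h2.cardinalMk_eq_trdeg, Cardinal.mk_unit]

theorem endgame [Fintype ι] (frac : ∀ i, IsFractionRing (chart x i) K)
    (norm : ∀ i, IsIntegrallyClosed (chart x i)) (one : x i₀ = 1) (hc : Cart x g) (hn : Nef x g)
    {n : ℕ} (dim : Algebra.trdeg ℂ K = n) (u : L) (hu : Transcendental K u)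
    (gen : IntermediateField.adjoin K {u} = ⊤) (k₁ : IntermediateField ℂ L) {ν : ℕ}
    (hk : Algebra.trdeg ℂ k₁ ≤ (ν + 1 : ℕ)) (a : ℕ)
    (fd : FiniteDimensional k₁ (Submodule.span k₁
      {f | ∃ (i : ℕ) (s : K), Sec x g i a s ∧ f = algebraMap K L s * u ^ i}))
    {c : ℚ} (hc0 : 0 < c)
    (big : ∀ᶠ t : ℕ in atTop, c * (t : ℚ) ^ ν ≤ finrank ℂ (SecS x g t a)) :
    ∃ d : ℚ, 0 < d ∧ ∃ᶠ t : ℕ in atTop, d * (t : ℚ) ^ ν ≤ finrank ℂ (SecS x g t 0) := by
  have t1 := trdeg_add_eq ℂ k₁ (A := L)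
  rw [← trdeg_add_eq ℂ K (A := L), dim, trdeg_simple hu gen] at t1
  obtain ⟨s, hs⟩ := exists_isTranscendenceBasis k₁ L
  rw [← hs.cardinalMk_eq_trdeg] at t1
  obtain ⟨φ, hφ⟩ := Cardinal.lt_aleph0.1 ((le_add_self.trans t1.le).trans_lt
    (by exact_mod_cast Cardinal.natCast_lt_aleph0 (n := n + 1)))
  obtain ⟨e⟩ := Cardinal.mk_eq_nat_iff.1 hφ
  have hN : n + 1 ≤ φ + ν + 1 := by
    have := t1.ge.trans (add_le_add hk hφ.le)
    have : n + 1 ≤ ν + 1 + φ := by exact_mod_cast this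
    omega
  obtain ⟨G, hG⟩ := (Submodule.fg_iff_finiteDimensional _).2 fd
  have : IsScalarTower ℂ (algebraicClosure k₁ L) L := .of_algebraMap_eq fun _ => rfl
  obtain ⟨ρ, b, C, h⟩ := (gs hc hn one frac norm dim hu gen).main (F := algebraicClosure k₁ L)
    ((hs.1.comp _ e.symm.injective).extendScalars _) hN
    (fun z hz => ⟨⟨z, mem_algebraicClosure_iff.2 (hz.restrictScalars k₁)⟩, rfl⟩) a
    (Submodule.span _ (G : Set L)) fun m f hf => by
      refine Submodule.span_le_restrictScalars k₁ _ _ (hG ▸ ?_)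
      refine Submodule.span_le_restrictScalars ℂ _ _ (Submodule.span_mono ?_ hf)
      rintro _ ⟨i, s, -, h1, rfl⟩
      exact ⟨i, s, h1, rfl⟩
  refine num (ρ := ρ) (c := b) (C := C) (fun m => ?_) hc0 big
  rw [← finrank_Gm hc hn i₀ hu, ← finrank_Gm hc hn i₀ hu]
  exact h m

theorem exists_val {u : L} (hu : Transcendental K u)
    (gen : IntermediateField.adjoin K {u} = ⊤) :
    ∃ w : Val L, (∀ c : K, c ≠ 0 → w (algebraMap K L c) = 1) ∧ w u < 1 ∧
      ∀ θ, w θ ≤ 1 → ∃ c : K, w (θ - algebraMap K L c) < 1 := by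
  let _ : Algebra K[X] L := (aeval u : K[X] →ₐ[K] L).toRingHom.toAlgebra
  have e : ∀ p : K[X], algebraMap K[X] L p = aeval u p := fun _ => rfl
  have : FaithfulSMul K[X] L :=
    (faithfulSMul_iff_algebraMap_injective _ _).2 (transcendental_iff_injective.1 hu)
  have : IsFractionRing K[X] L := .of_field _ _ fun z =>
    (IntermediateField.mem_adjoin_simple_iff K z).1 (gen ▸ IntermediateField.mem_top)
  have h1 : ∀ p : K[X], (idealX K).valuation L (aeval u p) < 1 ↔ p.coeff 0 = 0 := fun p => by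
    rw [← e, ← X_dvd_iff, ← Ideal.mem_span_singleton]
    exact (idealX K).valuation_lt_one_iff_mem p
  refine ⟨(idealX K).valuation L, fun c hc => ?_, by simpa using (h1 X).2 coeff_X_zero,
    fun θ hθ => ?_⟩
  · rw [← aeval_C u]
    refine ((idealX K).valuation_le_one (C c)).eq_of_not_lt fun h => hc ?_
    simpa using (h1 _).1 h
  · obtain ⟨p, hp⟩ := (idealX K).exists_valuation_sub_lt_of_integer hθ 1
    refine ⟨p.coeff 0, ?_⟩
    have h2 := (h1 (p - C (p.coeff 0))).2 (by simp)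
    rw [map_sub, aeval_C] at h2
    convert Valuation.map_sub_lt _ h2 hp using 2
    rw [e]
    ring

omit [Algebra ℂ L] in
theorem indep_val {F κ : Type} [CommRing F] [Algebra F L] {w : Val L}
    (hF : ∀ c : F, c ≠ 0 → w (algebraMap F L c) = 1) {f : κ → L} (f0 : ∀ i, f i ≠ 0)
    (inj : Function.Injective fun i => w (f i)) : LinearIndependent F f := by
  classical
  rw [linearIndependent_iff']
  intro s c hc
  by_contra hne
  push Not at hne
  obtain ⟨j, hj, hmax⟩ := Finset.exists_max_image (s.filter fun i => c i ≠ 0) (fun i => w (f i))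
    (hne.elim fun i hi => ⟨i, Finset.mem_filter.2 hi⟩)
  obtain ⟨j1, j2⟩ := Finset.mem_filter.1 hj
  have h1 : ∀ i, c i ≠ 0 → w (c i • f i) = w (f i) := fun i hi => by
    rw [Algebra.smul_def, map_mul, hF _ hi, one_mul]
  have h2 := (_root_.map_ne_zero w).2 (f0 j)
  have h3 := w.map_sum_eq_of_lt (f := fun i => c i • f i) j1 fun i hi => by
    rw [h1 j j2]
    by_cases h : c i = 0
    · rw [h, zero_smul, map_zero]
      exact zero_lt_iff.2 h2
    · rw [h1 i h]
      have := Finset.mem_sdiff.1 hi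
      exact lt_of_le_of_ne (hmax i (Finset.mem_filter.2 ⟨this.1, h⟩))
        fun e => this.2 (Finset.mem_singleton.2 (inj e))
  rw [hc, map_zero, h1 j j2] at h3
  exact h2 h3.symm

variable {w : Val L} (hK : ∀ c : K, c ≠ 0 → w (algebraMap K L c) = 1)
include hK

theorem val_le (c : K) : w (algebraMap K L c) ≤ 1 := by
  by_cases h : c = 0
  · simp [h]
  · exact (hK c h).le

theorem val_of_res {θ : L} {c : K} (h : w (θ - algebraMap K L c) < 1) (hc : c ≠ 0) : w θ = 1 := by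
  rw [← hK c hc] at h ⊢
  exact w.map_eq_of_sub_lt h

/-- Pairs of an element and its residue. -/
def Res : Subalgebra ℂ (L × K) where
  carrier := {p | w (p.1 - algebraMap K L p.2) < 1}
  add_mem' := fun {p q} hp hq => by
    change w (p.1 + q.1 - algebraMap K L (p.2 + q.2)) < 1
    rw [map_add, add_sub_add_comm]
    exact w.map_add_lt hp hq
  mul_mem' := fun {p q} hp hq => by
    change w (p.1 * q.1 - algebraMap K L (p.2 * q.2)) < 1
    have h1 : w p.1 ≤ 1 := by
      rw [← sub_add_cancel p.1 (algebraMap K L p.2)]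
      exact w.map_add_le (le_of_lt hp) (val_le hK _)
    have h2 : p.1 * q.1 - algebraMap K L (p.2 * q.2) = p.1 * (q.1 - algebraMap K L q.2) +
        algebraMap K L q.2 * (p.1 - algebraMap K L p.2) := by
      rw [map_mul]
      ring
    rw [h2]
    refine w.map_add_lt ?_ ?_ <;> rw [map_mul]
    · exact mul_lt_one_of_nonneg_of_lt_one_right h1 zero_le hq
    · exact mul_lt_one_of_nonneg_of_lt_one_right (val_le hK _) zero_le hp
  algebraMap_mem' := fun c => by
    change w (algebraMap ℂ L c - algebraMap K L (algebraMap ℂ K c)) < 1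
    simp [← IsScalarTower.algebraMap_apply]

/-- The field of residues of a subfield. -/
noncomputable def resField (k₁ : IntermediateField ℂ L) : IntermediateField ℂ K :=
  ((Res hK ⊓ k₁.toSubalgebra.comap (AlgHom.fst ℂ L K)).map (AlgHom.snd ℂ L K)).toIntermediateField
    (by
      rintro _ ⟨⟨θ, c⟩, ⟨h1, h2⟩, rfl⟩
      change c⁻¹ ∈ _
      by_cases hc : c = 0
      · simp [hc]
      refine ⟨(θ⁻¹, c⁻¹), ⟨?_, k₁.inv_mem h2⟩, rfl⟩
      have h3 := val_of_res hK h1 hc
      have h4 : θ ≠ 0 := fun e => by simp [e] at h3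
      have h5 : algebraMap K L c ≠ 0 := (_root_.map_ne_zero _).2 hc
      change w (θ⁻¹ - algebraMap K L c⁻¹) < 1
      rw [map_inv₀, inv_sub_inv h4 h5, map_div₀, map_mul, h3, hK c hc, mul_one, div_one,
        w.map_sub_swap]
      exact h1)

theorem mem_resField {k₁ : IntermediateField ℂ L} {c : K} :
    c ∈ resField hK k₁ ↔ ∃ θ ∈ k₁, w (θ - algebraMap K L c) < 1 :=
  ⟨fun ⟨p, h, e⟩ => ⟨p.1, h.2, e ▸ h.1⟩, fun ⟨θ, h1, h2⟩ => ⟨(θ, c), ⟨h2, h1⟩, rfl⟩⟩

theorem trdeg_res (k₁ : IntermediateField ℂ L) {h : L} (h1 : h ∈ k₁) (h0 : h ≠ 0) (h2 : w h < 1) :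
    Algebra.trdeg ℂ (resField hK k₁) + 1 ≤ Algebra.trdeg ℂ k₁ := by
  obtain ⟨s, hs⟩ := exists_isTranscendenceBasis ℂ (resField hK k₁)
  have hz := hs.1.map' (f := (resField hK k₁).val) Subtype.val_injective
  choose θ h3 h4 using fun i : s => (mem_resField hK).1 i.1.2
  have h5 : ∀ P : MvPolynomial s ℂ, (MvPolynomial.aeval θ P,
      MvPolynomial.aeval ((resField hK k₁).val ∘ (↑)) P) ∈ Res hK := fun P => by
    induction P using MvPolynomial.induction_on with
    | C c => simpa using (Res hK).algebraMap_mem c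
    | add p q hp hq => simpa using add_mem hp hq
    | mul_X p i hp => simpa using mul_mem hp (show (θ i, (i.1 : K)) ∈ Res hK from h4 i)
  have h6 : ∀ P : MvPolynomial s ℂ, P ≠ 0 → w (MvPolynomial.aeval θ P) = 1 := fun P hP =>
    val_of_res hK (h5 P) fun e => hP (hz.eq_zero_of_aeval_eq_zero _ e)
  have h7 : AlgebraicIndependent ℂ θ := algebraicIndependent_iff.2 fun P hP => by
    by_contra hn
    simpa [hP] using h6 P hn
  have h8 : LinearIndependent (Algebra.adjoin ℂ (Set.range θ)) fun i : ℕ => h ^ i :=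
    indep_val (w := w) (fun c hc => by
      obtain ⟨P, hP⟩ := (Algebra.adjoin_range_eq_range_aeval ℂ θ).le c.2
      change w c.1 = 1
      rw [← hP]
      exact h6 P fun e => hc (Subtype.ext (by rw [← hP, e, map_zero]; rfl)))
      (fun i => pow_ne_zero i h0) fun i j e => by
        simp only [map_pow] at e
        exact pow_right_injective₀ (zero_lt_iff.2 ((_root_.map_ne_zero w).2 h0)) h2.ne e
  have h9 := (h7.option_iff_transcendental h).2 (transcendental_iff.2 fun p hp => by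
    rw [aeval_eq_sum_range] at hp
    ext i
    by_cases hi : i ∈ Finset.range (p.natDegree + 1)
    · rw [linearIndependent_iff'.1 h8 _ _ hp i hi, coeff_zero]
    · rw [coeff_eq_zero_of_natDegree_lt (by simpa using hi), coeff_zero])
  have h10 : AlgebraicIndependent ℂ fun o : Option s => o.elim (⟨h, h1⟩ : k₁) fun i => ⟨θ i, h3 i⟩ :=
    .of_comp k₁.val (by
      convert h9 using 1
      funext o
      cases o <;> rfl)
  rw [← hs.cardinalMk_eq_trdeg, ← Cardinal.mk_option]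
  exact h10.cardinalMk_le_trdeg

theorem indep_res (res : ∀ θ, w θ ≤ 1 → ∃ c : K, w (θ - algebraMap K L c) < 1)
    (k₁ : IntermediateField ℂ L) {κ : Type} {s : κ → K}
    (hs : LinearIndependent (resField hK k₁) s) :
    LinearIndependent k₁ fun i => algebraMap K L (s i) := by
  rw [linearIndependent_iff'] at hs ⊢
  intro t θ hθ i hi
  obtain ⟨j, hj, hmax⟩ := t.exists_max_image (fun i => w (θ i)) ⟨i, hi⟩
  by_contra h0
  have h1 : 0 < w (θ j) := (zero_lt_iff.2 ((_root_.map_ne_zero w).2 fun e =>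
    h0 (Subtype.ext e))).trans_le (hmax i hi)
  have h2 : (θ j : L) ≠ 0 := (_root_.map_ne_zero w).1 h1.ne'
  have h3 : ∀ i, ∃ c : resField hK k₁, i ∈ t → w (θ i / θ j - algebraMap K L c) < 1 := fun i => by
    by_cases hi : i ∈ t
    · obtain ⟨c, hc⟩ := res (θ i / θ j) (by
        rw [map_div₀]
        exact (div_le_one₀ h1).2 (hmax i hi))
      exact ⟨⟨c, (mem_resField hK).2 ⟨_, div_mem (θ i).2 (θ j).2, hc⟩⟩, fun _ => hc⟩
    · exact ⟨0, fun h => absurd h hi⟩
  choose c hc using h3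
  have h4 : algebraMap K L (∑ i ∈ t, c i • s i) =
      -∑ i ∈ t, (θ i / θ j - algebraMap K L (c i)) * algebraMap K L (s i) := by
    have h5 : ∑ i ∈ t, (θ i : L) / θ j * algebraMap K L (s i) = 0 := by
      simp only [div_mul_eq_mul_div, ← Finset.sum_div]
      exact div_eq_zero_iff.2 (Or.inl hθ)
    simp only [sub_mul, Finset.sum_sub_distrib, h5, zero_sub, neg_neg, map_sum, ← map_mul]
    rfl
  have h6 : ∑ i ∈ t, c i • s i = 0 := by
    by_contra h6
    refine (hK _ h6).not_lt ?_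
    rw [h4, w.map_neg]
    refine w.map_sum_lt one_ne_zero fun i hi => ?_
    rw [map_mul]
    exact mul_lt_one_of_nonneg_of_lt_one_left zero_le (hc i hi) (val_le hK _)
  have h7 := hc j hj
  rw [hs t c h6 j hj, div_self h2] at h7
  simp at h7

omit hK

theorem nefdim (u : L) (hu : Transcendental K u)
    (gen : IntermediateField.adjoin K {u} = ⊤) (k₁ : IntermediateField ℂ L) {d : ℕ}
    (hk : Algebra.trdeg ℂ k₁ ≤ (d + 1 : ℕ))
    (fd : ∀ a : ℕ, FiniteDimensional k₁ (Submodule.span k₁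
      {f | ∃ (i : ℕ) (s : K), Sec x g i a s ∧ f = algebraMap K L s * u ^ i}))
    {a₀ : ℕ} (many : ∃ᶠ t : ℕ in atTop, ∃ s, s ≠ 0 ∧ Sec x g t a₀ s) :
    ∃ k₀ : IntermediateField ℂ K, Algebra.trdeg ℂ k₀ ≤ d ∧ ∀ a : ℕ, ∃ C : ℕ, ∀ t : ℕ,
      Module.rank k₀ (Submodule.span k₀ {s | Sec x g t a s}) ≤ C := by
  obtain ⟨w, hK, h1, res⟩ := exists_val hu gen
  have u0 : u ≠ 0 := fun e => hu (e ▸ isAlgebraic_zero)
  obtain ⟨h, h2, h3, h4⟩ : ∃ h ∈ k₁, h ≠ 0 ∧ w h < 1 := by
    by_contra hn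
    push Not at hn
    have := fd a₀
    have := (Nat.frequently_atTop_iff_infinite.1 many).to_subtype
    choose s s0 s1 using fun t : {t : ℕ | ∃ s, s ≠ 0 ∧ Sec x g t a₀ s} => t.2
    have h5 := indep_val (F := k₁) (w := w) (fun c hc => by
      have c0 : (c : L) ≠ 0 := fun e => hc (Subtype.ext e)
      have := hn _ (k₁.inv_mem c.2) (inv_ne_zero c0)
      rw [map_inv₀, one_le_inv₀ (zero_lt_iff.2 ((_root_.map_ne_zero w).2 c0))] at this
      exact le_antisymm this (hn _ c.2 c0))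
      (f := fun t => algebraMap K L (s t) * u ^ t.1)
      (fun t => mul_ne_zero ((_root_.map_ne_zero _).2 (s0 t)) (pow_ne_zero _ u0)) fun i j e => by
        simp only [map_mul, hK _ (s0 _), one_mul, map_pow] at e
        exact Subtype.ext (pow_right_injective₀ (zero_lt_iff.2 ((_root_.map_ne_zero w).2 u0))
          h1.ne e)
    exact Module.Finite.not_linearIndependent_of_infinite (M := Submodule.span k₁
      {f | ∃ (i : ℕ) (s : K), Sec x g i a₀ s ∧ f = algebraMap K L s * u ^ i})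
      (fun t => ⟨algebraMap K L (s t) * u ^ t.1, Submodule.subset_span
        ⟨t.1, s t, s1 t, rfl⟩⟩) (.of_comp (Submodule.subtype _) h5)
  refine ⟨resField hK k₁, ?_, fun a => ?_⟩
  · exact Cardinal.add_one_le_add_one_iff.1 ((trdeg_res hK k₁ h2 h3 h4).trans
      (by exact_mod_cast hk))
  have := fd a
  refine ⟨finrank k₁ (Submodule.span k₁ {f | ∃ (i : ℕ) (s : K), Sec x g i a s ∧
    f = algebraMap K L s * u ^ i}), fun t => ?_⟩
  obtain ⟨b, b1, b2, b3⟩ := exists_linearIndependent (resField hK k₁) {s | Sec x g t a s}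
  rw [← b2, rank_span_set b3, finrank_eq_rank]
  have h5 := (indep_res hK res k₁ b3).map' (LinearMap.mulRight k₁ (u ^ t))
    (LinearMap.ker_eq_bot.2 (mul_left_injective₀ (pow_ne_zero t u0)))
  exact LinearIndependent.cardinal_le_rank (v := fun i : b => ⟨_, Submodule.subset_span
    ⟨t, i.1, b1 i.2, rfl⟩⟩) (.of_comp (Submodule.subtype _) h5)

end Pool.Agent.Lib.MP_bc213e_ag.DS
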